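import Mathlib

set_option autoImplicit false

namespace Pool.Agent.Results.MP_75529e_al.NotInherited

/-- `IsIdeal I`: the additive subgroup `I` of the (commutative, not necessarily associative) ring `J`
is an ideal, i.e. `J I ⊆ I`. -/
def IsIdeal {J : Type} [NonUnitalNonAssocCommRing J] (I : AddSubgroup J) : Prop :=
  ∀ r x : J, x ∈ I → r * x ∈ I

/-- `IsIdealOf K I`: `K ⊆ I` and `I K ⊆ K`, i.e. `K` is an ideal of the ring `I`. -/
def IsIdealOf {J : Type} [NonUnitalNonAssocCommRing J] (K I : AddSubgroup J) : Prop :=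
  K ≤ I ∧ ∀ r x : J, r ∈ I → x ∈ K → r * x ∈ K

/-- `SquareZero K`: the additive subgroup generated by all products `a b`, `a, b ∈ K`, is zero. -/
def SquareZero {J : Type} [NonUnitalNonAssocCommRing J] (K : AddSubgroup J) : Prop :=
  AddSubgroup.closure {c : J | ∃ a ∈ K, ∃ b ∈ K, c = a * b} = ⊥

/-- vectors of length three over the field with two elements -/
abbrev V : Type := ZMod 2 × ZMod 2 × ZMod 2

/-- cross product on `V` -/
def cr (u v : V) : V :=
  (u.2.1 * v.2.2 + u.2.2 * v.2.1, u.2.2 * v.1 + u.1 * v.2.2, u.1 * v.2.1 + u.2.1 * v.1)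

/-- The ring of dimension seven over the field with two elements: `V ⊗ F_2[x]/(x^2)`
extended by the derivation `d/dx`. The element `(a, b, c)` stands for `a + b x + c d`. -/
structure J : Type where
  /-- coefficient of `1` -/
  a : V
  /-- coefficient of `x` -/
  b : V
  /-- coefficient of the derivation -/
  c : ZMod 2
deriving DecidableEq

namespace J

theorem ext' {x y : J} (h1 : x.a = y.a) (h2 : x.b = y.b) (h3 : x.c = y.c) : x = y := by
  cases x; cases y; simp_all

instance : Add J := ⟨fun x y => ⟨x.a + y.a, x.b + y.b, x.c + y.c⟩⟩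
instance : Zero J := ⟨⟨0, 0, 0⟩⟩
instance : Neg J := ⟨fun x => ⟨-x.a, -x.b, -x.c⟩⟩
instance : Mul J := ⟨fun x y =>
  ⟨cr x.a y.a + (x.c • y.b + y.c • x.b), cr x.a y.b + cr x.b y.a, 0⟩⟩

@[simp] theorem add_a (x y : J) : (x + y).a = x.a + y.a := rfl
@[simp] theorem add_b (x y : J) : (x + y).b = x.b + y.b := rfl
@[simp] theorem add_c (x y : J) : (x + y).c = x.c + y.c := rfl
@[simp] theorem zero_a : (0 : J).a = 0 := rfl
@[simp] theorem zero_b : (0 : J).b = 0 := rfl
@[simp] theorem zero_c : (0 : J).c = 0 := rfl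
@[simp] theorem neg_a (x : J) : (-x).a = -x.a := rfl
@[simp] theorem neg_b (x : J) : (-x).b = -x.b := rfl
@[simp] theorem neg_c (x : J) : (-x).c = -x.c := rfl
@[simp] theorem mul_a (x y : J) : (x * y).a = cr x.a y.a + (x.c • y.b + y.c • x.b) := rfl
@[simp] theorem mul_b (x y : J) : (x * y).b = cr x.a y.b + cr x.b y.a := rfl
@[simp] theorem mul_c (x y : J) : (x * y).c = 0 := rfl

end J

theorem cr_add (u v w : V) : cr u (v + w) = cr u v + cr u w := by
  simp only [cr, Prod.fst_add, Prod.snd_add, Prod.mk_add_mk]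
  ext <;> simp <;> ring

theorem add_cr (u v w : V) : cr (u + v) w = cr u w + cr v w := by
  simp only [cr, Prod.fst_add, Prod.snd_add, Prod.mk_add_mk]
  ext <;> simp <;> ring

theorem cr_comm (u v : V) : cr u v = cr v u := by
  simp only [cr]
  ext <;> simp <;> ring

theorem V_add_self (u : V) : u + u = 0 := by
  revert u; decide

theorem cr_self (u : V) : cr u u = 0 := by
  revert u; decide

theorem cr_zero (u : V) : cr u 0 = 0 := by
  revert u; decide

theorem zero_cr (u : V) : cr 0 u = 0 := by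
  revert u; decide

instance : NonUnitalNonAssocCommRing J where
  add_assoc x y z := J.ext' (by simp [add_assoc]) (by simp [add_assoc]) (by simp [add_assoc])
  zero_add x := J.ext' (by simp) (by simp) (by simp)
  add_zero x := J.ext' (by simp) (by simp) (by simp)
  add_comm x y := J.ext' (by simp [add_comm]) (by simp [add_comm]) (by simp [add_comm])
  neg_add_cancel x := J.ext' (by simp) (by simp) (by simp [CharTwo.add_self_eq_zero])
  nsmul := nsmulRec
  zsmul := zsmulRec
  left_distrib x y z := J.ext'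
    (by simp only [J.mul_a, J.add_a, J.add_b, J.add_c, cr_add, add_smul, smul_add]; abel)
    (by simp only [J.mul_b, J.add_a, J.add_b, cr_add]; abel)
    (by simp)
  right_distrib x y z := J.ext'
    (by simp only [J.mul_a, J.add_a, J.add_b, J.add_c, add_cr, add_smul, smul_add]; abel)
    (by simp only [J.mul_b, J.add_a, J.add_b, add_cr]; abel)
    (by simp)
  zero_mul x := J.ext' (by simp [zero_cr]) (by simp [zero_cr]) (by simp)
  mul_zero x := J.ext' (by simp [cr_zero]) (by simp [cr_zero]) (by simp)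
  mul_comm x y := J.ext'
    (by simp only [J.mul_a]; rw [cr_comm, add_comm (x.c • y.b)])
    (by simp only [J.mul_b]; rw [cr_comm, cr_comm x.b, add_comm])
    (by simp)

theorem J_sq (x : J) : x * x = 0 := J.ext'
  (by rw [J.mul_a, cr_self, V_add_self]; rfl)
  (by rw [J.mul_b, cr_comm x.b, V_add_self]; rfl)
  rfl

/-- the key fact on the cross product -/
theorem cr_key (b : V) (hb : b ≠ 0) : ∃ s t : V, cr (cr b s) (cr b t) ≠ 0 := by
  revert b; decide

theorem semiprime (K : AddSubgroup J) (hK : IsIdeal K) (hsq : ∀ x ∈ K, ∀ y ∈ K, x * y = 0) :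
    K = ⊥ := by
  rw [AddSubgroup.eq_bot_iff_forall]
  intro z hz
  by_contra hne
  -- elements of the form `(b, 0, 0)` in `K` are zero
  have key : ∀ b : V, (⟨b, 0, 0⟩ : J) ∈ K → b = 0 := by
    intro b hb
    by_contra hb0
    obtain ⟨s, t, hst⟩ := cr_key b hb0
    have h1 : (⟨s, 0, 0⟩ : J) * ⟨b, 0, 0⟩ ∈ K := hK _ _ hb
    have h2 : (⟨t, 0, 0⟩ : J) * ⟨b, 0, 0⟩ ∈ K := hK _ _ hb
    have h3 := congrArg J.a (hsq _ h1 _ h2)
    simp only [J.mul_a, J.mul_b, J.mul_c, J.zero_a] at h3
    apply hst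
    rw [cr_comm b s, cr_comm b t]
    simpa [cr_zero] using h3
  -- multiply by `d`
  have hb : z.b = 0 := by
    apply key
    have h1 : (⟨0, 0, 1⟩ : J) * z ∈ K := hK _ _ hz
    have h2 : (⟨0, 0, 1⟩ : J) * z = ⟨z.b, 0, 0⟩ := J.ext'
      (by simp [zero_cr]) (by simp [zero_cr]) (by simp)
    rwa [h2] at h1
  have hc : z.c = 0 := by
    by_contra hc0
    have hc1 : z.c = 1 := by
      generalize z.c = c at hc0 ⊢
      revert c; decide
    have h1 : ∀ s : V, (⟨s, cr s z.a + 0, 0⟩ : J) ∈ K := by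
      intro s
      have h2 : (⟨0, s, 0⟩ : J) * z ∈ K := hK _ _ hz
      have h3 : (⟨0, s, 0⟩ : J) * z = ⟨s, cr s z.a + 0, 0⟩ := J.ext'
        (by simp [zero_cr, hc1]) (by simp [zero_cr, hb]) (by simp)
      rwa [h3] at h2
    have h4 := congrArg J.a (hsq _ (h1 (1, 0, 0)) _ (h1 (0, 1, 0)))
    simp only [J.mul_a, J.zero_a, zero_smul, add_zero] at h4
    revert h4; decide
  have ha : z.a = 0 := by
    apply key
    have : z = ⟨z.a, 0, 0⟩ := J.ext' rfl hb hc
    rw [← this]; exact hz
  exact hne (J.ext' ha hb hc)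

/-- the ideal `V ⊗ F_2[x]/(x^2)` -/
def I0 : AddSubgroup J where
  carrier := {z | z.c = 0}
  add_mem' := by intro x y hx hy; change x.c + y.c = 0; rw [show x.c = 0 from hx, show y.c = 0 from hy]; rfl
  zero_mem' := rfl
  neg_mem' := by intro x hx; change -x.c = 0; rw [show x.c = 0 from hx]; rfl

/-- the square-zero ideal `V ⊗ x` of `I0` -/
def K0 : AddSubgroup J where
  carrier := {z | z.a = 0 ∧ z.c = 0}
  add_mem' := by
    intro x y hx hy
    exact ⟨by rw [J.add_a, hx.1, hy.1, add_zero], by rw [J.add_c, hx.2, hy.2, add_zero]⟩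
  zero_mem' := ⟨rfl, rfl⟩
  neg_mem' := by
    intro x hx
    exact ⟨by rw [J.neg_a, hx.1, neg_zero], by rw [J.neg_c, hx.2, neg_zero]⟩

theorem squareZero_iff {J : Type} [NonUnitalNonAssocCommRing J] (K : AddSubgroup J) :
    SquareZero K ↔ ∀ x ∈ K, ∀ y ∈ K, x * y = 0 := by
  rw [SquareZero, AddSubgroup.closure_eq_bot_iff]
  constructor
  · intro h x hx y hy
    exact h ⟨x, hx, y, hy, rfl⟩
  · rintro h c ⟨x, hx, y, hy, rfl⟩
    exact h x hx y hy

/-- There is a Jordan ring `J` (commutative, satisfying the Jordan identity `(x^2 y) x = x^2 (y x)`)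
which is semiprime, i.e. has no nonzero ideal of square zero, but has an ideal `I` which, as a ring,
is not semiprime: `I` has a nonzero ideal `K` with `K^2 = 0`. -/
theorem result :
    ∃ (J : Type) (_ : NonUnitalNonAssocCommRing J),
      (∀ x y : J, ((x * x) * y) * x = (x * x) * (y * x)) ∧
      (∀ K : AddSubgroup J, IsIdeal K → SquareZero K → K = ⊥) ∧
      ∃ I : AddSubgroup J, IsIdeal I ∧
        ∃ K : AddSubgroup J, IsIdealOf K I ∧ K ≠ ⊥ ∧ SquareZero K := by
  refine ⟨J, inferInstance, ?_, ?_, I0, ?_, K0, ?_, ?_, ?_⟩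
  · intro x y
    rw [J_sq, zero_mul, zero_mul, zero_mul]
  · intro K hK hs
    exact semiprime K hK ((squareZero_iff K).1 hs)
  · intro r x _
    rfl
  · refine ⟨fun x hx => hx.2, ?_⟩
    intro r x hr hx
    refine ⟨?_, rfl⟩
    rw [J.mul_a, hx.1, hx.2, show r.c = 0 from hr, cr_zero, zero_smul, zero_smul, add_zero, add_zero]
  · intro h
    have h1 : (⟨0, (1, 0, 0), 0⟩ : J) ∈ K0 := ⟨rfl, rfl⟩
    rw [h, AddSubgroup.mem_bot] at h1
    have h2 := congrArg J.b h1
    revert h2; decide
  · rw [squareZero_iff]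
    intro x hx y hy
    apply J.ext'
    · rw [J.mul_a, hx.1, hx.2, hy.2, zero_cr, zero_smul, zero_smul, add_zero, add_zero]; rfl
    · rw [J.mul_b, hx.1, hy.1, zero_cr, cr_zero, add_zero]; rfl
    · rfl

end Pool.Agent.Results.MP_75529e_al.NotInherited
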